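import Pool.Agent.L5helper42.Sym.Circuit
import Pool.Agent.L5helper42.Sym.Perms

/-!
# Invariant circuits with AND, OR, NOT and MOD gates
-/

set_option autoImplicit false
set_option linter.unusedSectionVars false
set_option linter.unusedVariables false

open Equiv Finset

namespace Pool.Agent.L5helper42.Sym

/-- The function `φ` of the number of ones describes an AND gate of fan-in `f`, an OR gate, a NOT
gate (output `1` if and only if no incoming wire carries a `1`) or a MOD `m` gate. -/
def IsACCGate (m f : ℕ) (φ : ℕ → Bool) : Prop :=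
  φ = (fun c => decide (c = f)) ∨ φ = (fun c => decide (0 < c)) ∨ φ = (fun c => decide (c = 0)) ∨
    φ = (fun c => !decide (m ∣ c))

section

variable {n s : ℕ} {D : Finset (Fin n)}

/-- The number of ones in `D`. -/
def W (D : Finset (Fin n)) (x : Fin n → Bool) : ℕ := (D.filter fun i => x i = true).card

lemma W_eq (x : Fin n → Bool) :
    W D x = (univ.filter fun b : {i // i ∈ D} => x b.1 = true).card := by
  unfold W
  rw [← card_map (Function.Embedding.subtype (fun b => b ∈ D))]
  congr 1
  ext b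
  simp [and_comm]

/-- The action on the inputs. -/
abbrev rho (D : Finset (Fin n)) : Perm {i // i ∈ D} →* Perm (Fin n) := Perm.ofSubtype

lemma rho_symm_mem (π : Perm {i // i ∈ D}) (b : {i // i ∈ D}) :
    (rho D π).symm b.1 = (π.symm b).1 := by
  rw [Equiv.symm_apply_eq]
  have := Perm.ofSubtype_apply_coe π (π.symm b)
  rw [this, Equiv.apply_symm_apply]

lemma rho_symm_notMem (π : Perm {i // i ∈ D}) {i : Fin n} (hi : i ∉ D) :
    (rho D π).symm i = i := by
  rw [Equiv.symm_apply_eq]
  exact (Perm.ofSubtype_apply_of_not_mem π hi).symm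

/-- Move `x` to `y`. -/
lemma exists_move (B : Finset {i // i ∈ D}) (hB : B.card + 3 ≤ D.card) {x y : Fin n → Bool}
    (hoff : ∀ i, i ∉ D → x i = y i) (hxy : ∀ b ∈ B, x b.1 = y b.1) (hW : W D x = W D y) :
    ∃ π : Perm {i // i ∈ D}, Perm.sign π = 1 ∧ (∀ b ∈ B, π b = b) ∧
      (fun i => x ((rho D π).symm i)) = y := by
  rw [W_eq, W_eq] at hW
  obtain ⟨π, h1, h2, h3⟩ := exists_even_perm_fix B (by rwa [Fintype.card_coe])
    (fun b => x b.1) (fun b => y b.1) hxy hW
  refine ⟨π, h1, h2, ?_⟩
  funext i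
  by_cases hi : i ∈ D
  · have h4 := rho_symm_mem π ⟨i, hi⟩
    have h5 := h3 (π.symm ⟨i, hi⟩)
    rw [Equiv.apply_symm_apply] at h5
    simp only at h4 h5
    rw [h4, ← h5]
  · rw [rho_symm_notMem π hi]
    exact hoff i hi

variable (C : Circ (Fin n) s)

lemma val_move (g : Fin s) (hg : (C.gsupp (rho D) g).card + 3 ≤ D.card)
    {x y : Fin n → Bool} (hoff : ∀ i, i ∉ D → x i = y i)
    (hxy : ∀ b ∈ C.gsupp (rho D) g, x b.1 = y b.1) (hW : W D x = W D y) :
    C.val x g = C.val y g := by
  obtain ⟨π, h1, h2, h3⟩ := exists_move (C.gsupp (rho D) g) hg hoff hxy hW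
  have := C.val_even (rho D) g h2 h1 x
  rw [h3] at this
  exact this.symm

/-- Change `x` outside a small set such that it gets a given weight. -/
lemma exists_weight (x : Fin n → Bool) (B : Finset {i // i ∈ D}) {k w : ℕ} (hB : B.card ≤ k)
    (hw : k ≤ w) (hw' : w + k ≤ D.card) :
    ∃ y : Fin n → Bool, (∀ i, i ∉ D → y i = x i) ∧ (∀ b ∈ B, y b.1 = x b.1) ∧ W D y = w := by
  classical
  set B' : Finset (Fin n) := B.map (Function.Embedding.subtype (fun b => b ∈ D)) with hB'
  have hcard : B'.card = B.card := card_map _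
  have hsub : B' ⊆ D := by
    intro i hi
    obtain ⟨b, _, rfl⟩ := mem_map.1 hi
    exact b.2
  have h1 : (B'.filter fun i => x i = true) ⊆ D.filter (fun i => i ∉ B' ∨ x i = true) := by
    intro i hi
    rw [mem_filter] at hi ⊢
    exact ⟨hsub hi.1, Or.inr hi.2⟩
  have h2 : (B'.filter fun i => x i = true).card ≤ w := by
    have := card_filter_le B' (fun i => x i = true)
    omega
  have h3 : w ≤ (D.filter (fun i => i ∉ B' ∨ x i = true)).card := by
    have h4 : D \ B' ⊆ D.filter (fun i => i ∉ B' ∨ x i = true) := by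
      intro i hi
      rw [mem_sdiff] at hi
      exact mem_filter.2 ⟨hi.1, Or.inl hi.2⟩
    have h5 := card_le_card h4
    rw [card_sdiff_of_subset hsub] at h5
    omega
  obtain ⟨T, hT1, hT2, hT3⟩ := exists_subsuperset_card_eq h1 h2 h3
  refine ⟨fun i => if i ∈ D then decide (i ∈ T) else x i, ?_, ?_, ?_⟩
  · intro i hi
    simp [hi]
  · intro b hb
    have hbB' : b.1 ∈ B' := mem_map_of_mem _ hb
    simp only [b.2, if_true]
    by_cases hx : x b.1 = true
    · have : b.1 ∈ T := hT1 (mem_filter.2 ⟨hbB', hx⟩)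
      rw [hx]; simpa using this
    · have : b.1 ∉ T := by
        intro h
        have := (mem_filter.1 (hT2 h)).2
        rcases this with h | h
        · exact h hbB'
        · exact hx h
      simp [this, hx]
  · unfold W
    rw [← hT3]
    congr 1
    ext i
    simp only [mem_filter]
    constructor
    · rintro ⟨h1, h2⟩
      simpa [h1] using h2
    · intro h
      have hD := (mem_filter.1 (hT2 h)).1
      exact ⟨hD, by simpa [hD] using h⟩

/-- The set of points which determine the value of a node up to symmetry. -/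
noncomputable def nsupp (C : Circ (Fin n) s) (D : Finset (Fin n)) :
    Fin n ⊕ Fin s → Finset {i // i ∈ D}
  | Sum.inl i => univ.filter fun b => b.1 = i
  | Sum.inr h => C.gsupp (rho D) h

lemma nsupp_card_le {k : ℕ} (hk : 1 ≤ k) (hgk : ∀ g, (C.gsupp (rho D) g).card ≤ k)
    (u : Fin n ⊕ Fin s) : (nsupp C D u).card ≤ k := by
  cases u with
  | inl i =>
    refine (card_le_one.2 ?_).trans hk
    intro a ha b hb
    simp only [nsupp, mem_filter, mem_univ, true_and] at ha hb
    exact Subtype.ext (ha.trans hb.symm)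
  | inr h => exact hgk h

/-- The induction hypothesis for a node. -/
def NodeOK (C : Circ (Fin n) s) (D : Finset (Fin n)) (k M : ℕ) (u : Fin n ⊕ Fin s) : Prop :=
  ∀ x y : Fin n → Bool, (∀ i, i ∉ D → x i = y i) → (∀ b ∈ nsupp C D u, x b.1 = y b.1) →
    2 * k ≤ W D x → W D x + 2 * k ≤ D.card → 2 * k ≤ W D y → W D y + 2 * k ≤ D.card →
    W D x ≡ W D y [MOD M] → C.nval x u = C.nval y u

lemma nodeOK_inl (k M : ℕ) (i : Fin n) : NodeOK C D k M (Sum.inl i) := by
  intro x y hoff hxy _ _ _ _ _
  simp only [Circ.nval, Sum.elim_inl]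
  by_cases hi : i ∈ D
  · exact hxy ⟨i, hi⟩ (by simp [nsupp])
  · exact hoff i hi

lemma exists_node {k M : ℕ} (hk : 1 ≤ k) (hgk : ∀ g, (C.gsupp (rho D) g).card ≤ k)
    (hD : k + 3 ≤ D.card) (g : Fin s) (hg : ∀ u, C.wires g u ≠ 0 → NodeOK C D k M u)
    {x y : Fin n → Bool} (hoff : ∀ i, i ∉ D → x i = y i)
    (hxy : ∀ b ∈ C.gsupp (rho D) g, x b.1 = y b.1)
    (h1 : 2 * k ≤ W D x) (h2 : W D x + 2 * k ≤ D.card) (h3 : 2 * k ≤ W D y)
    (h4 : W D y + 2 * k ≤ D.card) (h5 : W D x ≡ W D y [MOD M]) {v : Bool}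
    (hex : ∃ u, C.wires g u ≠ 0 ∧ C.nval x u = v) : ∃ u, C.wires g u ≠ 0 ∧ C.nval y u = v := by
  classical
  obtain ⟨u, hu, huv⟩ := hex
  obtain ⟨y', hy1, hy2, hy3⟩ := exists_weight (D := D) x (C.gsupp (rho D) g ∪ nsupp C D u)
    (k := 2 * k) (w := W D y)
    ((card_union_le _ _).trans (by
      have := hgk g
      have := nsupp_card_le C hk hgk u
      omega)) h3 h4
  have hgg : (C.gsupp (rho D) g).card + 3 ≤ D.card := by
    have := hgk g
    omega
  obtain ⟨π, hs, hfix, hmove⟩ := exists_move (C.gsupp (rho D) g) hgg (x := y') (y := y)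
    (fun i hi => (hy1 i hi).trans (hoff i hi))
    (fun b hb => (hy2 b (mem_union_left _ hb)).trans (hxy b hb)) hy3
  obtain ⟨σ, hσ, hσg⟩ := C.exists_lift (rho D) g hfix hs
  refine ⟨Sum.map (rho D π) σ u, ?_, ?_⟩
  · have := (hσ.2 g).2 u
    rw [hσg] at this
    rwa [this]
  · have h6 := C.nval_aut hσ y' u
    rw [hmove] at h6
    rw [h6, ← huv]
    exact (hg u hu x y' (fun i hi => (hy1 i hi).symm)
      (fun b hb => (hy2 b (mem_union_right _ hb)).symm) h1 h2 (by rw [hy3]; exact h3)
      (by rw [hy3]; exact h4) (by rw [hy3]; exact h5)).symm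

/-- The modulus. -/
def modulus (m k : ℕ) : ℕ := m * ∏ p ∈ m.primeFactors, p ^ (1 + Nat.log p k)

lemma modulus_pos {m : ℕ} (hm : 1 ≤ m) (k : ℕ) : 0 < modulus m k := by
  unfold modulus
  refine Nat.mul_pos hm (Finset.prod_pos fun p hp => ?_)
  exact pow_pos (Nat.prime_of_mem_primeFactors hp).pos _

lemma pow_dvd_modulus {m p : ℕ} (k : ℕ) (hp : p ∈ m.primeFactors) {e : ℕ} (he : p ^ e ∣ m) :
    p ^ (e + (1 + Nat.log p k)) ∣ modulus m k := by
  unfold modulus
  rw [pow_add]
  exact Nat.mul_dvd_mul he (Finset.dvd_prod_of_mem _ hp)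

/-- The key step for MOD gates. -/
lemma pow_dvd_diff {m k M : ℕ} (hk : 1 ≤ k) (hM : M = modulus m k)
    (hgk : ∀ g, (C.gsupp (rho D) g).card ≤ k)
    (hD : 2 * k + 2 ≤ D.card) (g : Fin s) (hg : ∀ u, C.wires g u ≠ 0 → NodeOK C D k M u)
    {x y : Fin n → Bool} (E : Finset {i // i ∈ D}) (hE : Disjoint E (C.gsupp (rho D) g))
    (hxE : ∀ b ∈ E, x b.1 = false) (hyE : ∀ b ∈ E, y b.1 = true)
    (hxy : ∀ i, (∀ h : i ∈ D, (⟨i, h⟩ : {i // i ∈ D}) ∉ E) → x i = y i)
    (h1 : 2 * k ≤ W D x) (h2 : W D x + 2 * k ≤ D.card) (h3 : 2 * k ≤ W D y)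
    (h4 : W D y + 2 * k ≤ D.card) (h5 : W D x ≡ W D y [MOD M]) (hEM : M ∣ E.card)
    {p : ℕ} (hp : p.Prime) {e : ℕ} (he : 1 ≤ e) (hpe : p ^ e ∣ m) (hm : m ≠ 0) :
    ((p ^ e : ℕ) : ℤ) ∣ ∑ u, ((if C.nval x u then (C.wires g u : ℤ) else 0) -
      (if C.nval y u then (C.wires g u : ℤ) else 0)) := by
  classical
  have hpm : p ∈ m.primeFactors :=
    Nat.mem_primeFactors.2 ⟨hp, (dvd_pow_self p (by omega)).trans hpe, hm⟩
  set N := e + (1 + Nat.log p k) with hN
  have hdvd : p ^ N ∣ E.card := (hM ▸ pow_dvd_modulus k hpm hpe).trans hEM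
  obtain ⟨c, hc1, hc2, hc3⟩ := exists_cycles E (p ^ N) (pow_pos hp.pos _) hdvd
  set τ := c * c with hτ
  have hcE : ∀ b, b ∈ E → c b ∈ E := by
    intro b hb
    by_contra h
    have := hc1 _ h
    exact h ((c.injective this).symm ▸ hb)
  have hτoff : ∀ b, b ∉ E → τ b = b := by
    intro b hb
    rw [hτ, Perm.mul_apply, hc1 b hb, hc1 b hb]
  have hτE : ∀ b, b ∈ E ↔ τ b ∈ E := by
    intro b
    constructor
    · intro hb; exact hcE _ (hcE _ hb)
    · intro hb
      by_contra h
      rw [hτoff b h] at hb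
      exact h hb
  have hsign : Perm.sign τ = 1 := by
    rw [hτ, map_mul]
    exact Int.units_mul_self _
  have hfix : ∀ b ∈ C.gsupp (rho D) g, τ b = b := fun b hb =>
    hτoff b (fun h => (Finset.disjoint_left.1 hE h) hb)
  obtain ⟨σ, hσ, hσg⟩ := C.exists_lift (rho D) g hfix hsign
  have hτN : τ ^ p ^ N = 1 := by
    rw [hτ, ← pow_two, ← pow_mul, mul_comm, pow_mul, hc3, one_pow]
  obtain ⟨w, K, hw, hK⟩ := exists_pow_order hp τ σ hτN
  set σ' := σ ^ w with hσ'
  have hA : (τ, σ') ∈ C.autGrp (rho D) := by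
    have := (C.autGrp (rho D)).pow_mem hσ w
    rw [Prod.pow_mk, hw] at this
    exact this
  have hσ'g : σ' g = g := by
    have : ∀ w : ℕ, (σ ^ w) g = g := by
      intro w
      induction w with
      | zero => rfl
      | succ w ih => rw [pow_succ, Perm.mul_apply, hσg, ih]
    exact this w
  -- the strings `x` and `y` are fixed
  have hinv : ∀ z : Fin n → Bool, (∀ b ∈ E, ∀ b' ∈ E, z b.1 = z b'.1) →
      (fun i => z ((rho D τ).symm i)) = z := by
    intro z hz
    funext i
    by_cases hi : i ∈ D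
    · have h6 := rho_symm_mem τ ⟨i, hi⟩
      simp only at h6
      rw [h6]
      by_cases hb : (⟨i, hi⟩ : {i // i ∈ D}) ∈ E
      · have : τ.symm ⟨i, hi⟩ ∈ E := by
          rw [hτE, Equiv.apply_symm_apply]; exact hb
        exact hz _ this _ hb
      · have : τ.symm ⟨i, hi⟩ = ⟨i, hi⟩ := by
          rw [Equiv.symm_apply_eq]; exact (hτoff _ hb).symm
        rw [this]
    · rw [rho_symm_notMem τ hi]
  have hx : (fun i => x ((rho D τ).symm i)) = x :=
    hinv x fun b hb b' hb' => (hxE b hb).trans (hxE b' hb').symm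
  have hy : (fun i => y ((rho D τ).symm i)) = y :=
    hinv y fun b hb b' hb' => (hyE b hb).trans (hyE b' hb').symm
  set ρV : Perm (Fin n ⊕ Fin s) := Equiv.sumCongr (rho D τ) σ' with hρV
  have hpow : ∀ j : ℕ, ∀ u, (ρV ^ j) u = Sum.map ((rho D τ) ^ j : Perm (Fin n)) (σ' ^ j : Perm (Fin s)) u := by
    intro j
    induction j with
    | zero => intro u; cases u <;> rfl
    | succ j ih =>
      intro u
      rw [pow_succ', Perm.mul_apply, ih]
      cases u <;> simp [hρV, pow_succ']
  refine dvd_sum_of_perm hp he ρV (K := N + K) ?_ _ ?_ ?_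
  · ext u
    rw [hpow]
    have ha : (rho D τ) ^ p ^ (N + K) = 1 := by
      rw [← map_pow, pow_add, pow_mul, hτN, one_pow, map_one]
    have hb : σ' ^ p ^ (N + K) = 1 := by
      rw [add_comm, pow_add, pow_mul, hK, one_pow]
    rw [ha, hb]
    cases u <;> rfl
  · intro u
    have h6 : C.wires g (ρV u) = C.wires g u := by
      have := (hA.2 g).2 u
      simp only [hσ'g] at this
      exact this
    have h7 : C.nval x (ρV u) = C.nval x u := by
      have := C.nval_aut hA x u
      rw [hx] at this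
      exact this
    have h8 : C.nval y (ρV u) = C.nval y u := by
      have := C.nval_aut hA y u
      rw [hy] at this
      exact this
    rw [h6, h7, h8]
  · intro u hu
    by_cases hw0 : C.wires g u = 0
    · simp [hw0]
    have hkN : k < p ^ (N - e) := by
      rw [hN, Nat.add_sub_cancel_left, add_comm]
      exact Nat.lt_pow_succ_log_self hp.one_lt k
    have heq : C.nval x u = C.nval y u := by
      refine hg u hw0 x y ?_ ?_ h1 h2 h3 h4 h5
      · intro i hi
        exact hxy i (fun h => absurd h hi)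
      · intro b hb
        refine hxy b.1 (fun h => ?_)
        refine notMem_of_inv hp he (by omega) hkN hc2 (B := nsupp C D u)
          (nsupp_card_le C hk hgk u) ?_ hb
        rw [hpow] at hu
        intro b' hb'
        rw [← hτ]
        cases u with
        | inl i =>
          simp only [nsupp, mem_filter, mem_univ, true_and] at hb' ⊢
          simp only [Sum.map_inl, Sum.inl.injEq] at hu
          rw [← map_pow, ← hb', Perm.ofSubtype_apply_coe] at hu
          rw [← hb', hu]
        | inr h =>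
          simp only [Sum.map_inr, Sum.inr.injEq] at hu
          refine supp_image (P := C.stab (rho D) h) ?_ ?_ hb'
          · have h6 : (supp (C.stab (rho D) h)).card ≤ k := hgk h
            rw [Fintype.card_coe]
            omega
          · exact ⟨σ' ^ p ^ (e - 1), (C.autGrp (rho D)).pow_mem hA (p ^ (e - 1)), hu⟩
    rw [heq, sub_self]

lemma mod_case {m k : ℕ} (hm : m ≠ 0) (hk : 1 ≤ k)
    (hgk : ∀ g, (C.gsupp (rho D) g).card ≤ k) (g : Fin s)
    (hg : ∀ u, C.wires g u ≠ 0 → NodeOK C D k (modulus m k) u)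
    (hfn : C.fn g = fun c => !decide (m ∣ c))
    {x y : Fin n → Bool} (hoff : ∀ i, i ∉ D → x i = y i)
    (hxy : ∀ b ∈ C.gsupp (rho D) g, x b.1 = y b.1)
    (h1 : 2 * k ≤ W D x) (h2 : W D x + 2 * k ≤ D.card) (h3 : 2 * k ≤ W D y)
    (h4 : W D y + 2 * k ≤ D.card) (h5 : W D x ≡ W D y [MOD modulus m k])
    (hle : W D x ≤ W D y) : C.val x g = C.val y g := by
  classical
  set E0 : Finset {i // i ∈ D} := univ.filter fun b => x b.1 = false ∧ b ∉ C.gsupp (rho D) g
    with hE0
  have hcard : W D y - W D x ≤ E0.card := by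
    rw [W_eq, W_eq]
    have hsub : (univ.filter fun b : {i // i ∈ D} => y b.1 = true) ⊆
        (univ.filter fun b : {i // i ∈ D} => x b.1 = true) ∪ E0 := by
      intro b hb
      simp only [mem_filter, mem_univ, true_and] at hb
      by_cases hx : x b.1 = true
      · exact mem_union_left _ (by simpa using hx)
      · refine mem_union_right _ ?_
        simp only [hE0, mem_filter, mem_univ, true_and]
        refine ⟨by simpa using hx, fun h => hx ?_⟩
        rw [hxy b h, hb]
    have := (card_le_card hsub).trans (card_union_le _ _)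
    omega
  obtain ⟨E, hEs, hEc⟩ := exists_subset_card_eq hcard
  set E' : Finset (Fin n) := E.map (Function.Embedding.subtype (fun b => b ∈ D)) with hE'
  have hE'mem : ∀ i, i ∈ E' ↔ ∃ h : i ∈ D, (⟨i, h⟩ : {i // i ∈ D}) ∈ E := by
    intro i
    simp only [hE', mem_map, Function.Embedding.subtype_apply]
    constructor
    · rintro ⟨b, hb, rfl⟩; exact ⟨b.2, hb⟩
    · rintro ⟨h, hb⟩; exact ⟨⟨i, h⟩, hb, rfl⟩
  set y' : Fin n → Bool := fun i => if i ∈ E' then true else x i with hy'
  have hE'c : E'.card = W D y - W D x := by rw [hE', card_map, hEc]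
  have hWy' : W D y' = W D y := by
    have hun : (D.filter fun i => y' i = true) = (D.filter fun i => x i = true) ∪ E' := by
      ext i
      simp only [mem_filter, mem_union, hy']
      constructor
      · rintro ⟨ha, hb⟩
        by_cases hi : i ∈ E'
        · exact Or.inr hi
        · rw [if_neg hi] at hb; exact Or.inl ⟨ha, hb⟩
      · rintro (⟨ha, hb⟩ | hi)
        · refine ⟨ha, ?_⟩
          split_ifs
          · rfl
          · exact hb
        · exact ⟨((hE'mem i).1 hi).1, by rw [if_pos hi]⟩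
    have hdis : Disjoint (D.filter fun i => x i = true) E' := by
      rw [Finset.disjoint_left]
      intro i hi hi'
      obtain ⟨h, hb⟩ := (hE'mem i).1 hi'
      have := (mem_filter.1 (hEs hb)).2.1
      simp only at this
      rw [(mem_filter.1 hi).2] at this
      exact absurd this (by decide)
    have : W D y' = W D x + E'.card := by
      unfold W
      rw [hun, card_union_of_disjoint hdis]
    omega
  have hoff' : ∀ i, i ∉ D → y' i = x i := by
    intro i hi
    have : i ∉ E' := fun h => hi ((hE'mem i).1 h).1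
    simp [hy', this]
  have hval : C.val y' g = C.val y g := by
    refine val_move C g ?_ (fun i hi => (hoff' i hi).trans (hoff i hi)) ?_ hWy'
    · have := hgk g
      omega
    · intro b hb
      rw [← hxy b hb]
      have : b.1 ∉ E' := by
        intro h
        obtain ⟨h', hb'⟩ := (hE'mem b.1).1 h
        exact (mem_filter.1 (hEs hb')).2.2 hb
      simp [hy', this]
  rw [← hval, C.val_eq, C.val_eq, hfn]
  have hEM : modulus m k ∣ E.card := by
    rw [hEc]
    exact (Nat.modEq_iff_dvd' hle).1 h5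
  have hdiff : (m : ℤ) ∣ ∑ u, ((if C.nval x u then (C.wires g u : ℤ) else 0) -
      (if C.nval y' u then (C.wires g u : ℤ) else 0)) := by
    have key : ∀ p e : ℕ, p.Prime → p ^ e ∣ m → ((p ^ e : ℕ) : ℤ) ∣
        ∑ u, ((if C.nval x u then (C.wires g u : ℤ) else 0) -
          (if C.nval y' u then (C.wires g u : ℤ) else 0)) := by
      intro p e hp hpe
      rcases Nat.eq_zero_or_pos e with he | he
      · subst he; simp
      refine pow_dvd_diff C (D := D) hk rfl hgk (by omega) g hg E ?_ ?_ ?_ ?_ h1 h2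
        (by rw [hWy']; exact h3) (by rw [hWy']; exact h4) (by rw [hWy']; exact h5) hEM hp he hpe hm
      · rw [Finset.disjoint_left]
        intro b hb
        exact (mem_filter.1 (hEs hb)).2.2
      · intro b hb
        exact (mem_filter.1 (hEs hb)).2.1
      · intro b hb
        have : b.1 ∈ E' := (hE'mem b.1).2 ⟨b.2, hb⟩
        simp [hy', this]
      · intro i hi
        have : i ∉ E' := by
          intro h
          obtain ⟨h', hb⟩ := (hE'mem i).1 h
          exact hi h' hb
        simp [hy', this]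
    have h6 : m ∣ (∑ u, ((if C.nval x u then (C.wires g u : ℤ) else 0) -
          (if C.nval y' u then (C.wires g u : ℤ) else 0))).natAbs := by
      rw [Nat.dvd_iff_prime_pow_dvd_dvd]
      intro p e hp hpe
      exact Int.natCast_dvd.1 (key p e hp hpe)
    exact Int.natCast_dvd.2 h6
  have hcast : ∀ z : Fin n → Bool, ((C.count z g : ℕ) : ℤ) =
      ∑ u, (if C.nval z u then (C.wires g u : ℤ) else 0) := by
    intro z
    unfold Circ.count
    push_cast
    rfl
  rw [sum_sub_distrib, ← hcast, ← hcast] at hdiff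
  have h6 : m ∣ C.count x g ↔ m ∣ C.count y' g := by
    have h7 : (m : ℤ) ∣ (C.count x g : ℤ) ↔ (m : ℤ) ∣ (C.count y' g : ℤ) := by
      constructor
      · intro h
        have := (dvd_sub_right h).1 hdiff
        exact this
      · intro h
        have := dvd_add hdiff h
        simpa using this
    exact_mod_cast h7
  simp only [h6]

lemma count_pos_iff (x : Fin n → Bool) (g : Fin s) :
    0 < C.count x g ↔ ∃ u, C.wires g u ≠ 0 ∧ C.nval x u = true := by
  unfold Circ.count
  rw [Nat.pos_iff_ne_zero, Ne, Finset.sum_eq_zero_iff]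
  push Not
  constructor
  · rintro ⟨u, -, hu⟩
    by_cases h : C.nval x u = true
    · rw [if_pos h] at hu; exact ⟨u, hu, h⟩
    · rw [if_neg h] at hu; exact absurd rfl hu
  · rintro ⟨u, h1, h2⟩
    exact ⟨u, mem_univ _, by rwa [if_pos h2]⟩

lemma count_eq_iff (x : Fin n → Bool) (g : Fin s) :
    C.count x g = ∑ u, C.wires g u ↔ ¬ ∃ u, C.wires g u ≠ 0 ∧ C.nval x u = false := by
  unfold Circ.count
  have hle : ∀ u ∈ (univ : Finset (Fin n ⊕ Fin s)),
      (if C.nval x u then C.wires g u else 0) ≤ C.wires g u := by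
    intro u _
    split_ifs <;> omega
  rw [Finset.sum_eq_sum_iff_of_le hle]
  push Not
  constructor
  · intro h u hu hcon
    have := h u (mem_univ _)
    rw [hcon] at this
    simp at this
    exact hu this.symm
  · intro h u _
    by_cases hu : C.wires g u = 0
    · simp [hu]
    · have := h u hu
      simp only [ne_eq, Bool.not_eq_false] at this
      rw [if_pos this]

/-- The main induction. -/
theorem nodeOK_gate {m k : ℕ} (hm : m ≠ 0) (hk : 1 ≤ k)
    (hgk : ∀ g, (C.gsupp (rho D) g).card ≤ k)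
    (hC : ∀ g, IsACCGate m (∑ u, C.wires g u) (C.fn g)) (g : Fin s) :
    NodeOK C D k (modulus m k) (Sum.inr g) := by
  induction g using WellFoundedLT.induction with
  | ind g ih =>
    have hg : ∀ u, C.wires g u ≠ 0 → NodeOK C D k (modulus m k) u := by
      intro u hu
      cases u with
      | inl i => exact nodeOK_inl C k _ i
      | inr h => exact ih h (C.acyclic g h hu)
    intro x y hoff hxy h1 h2 h3 h4 h5
    have hD : k + 3 ≤ D.card := by omega
    have hxy' : ∀ b ∈ C.gsupp (rho D) g, x b.1 = y b.1 := hxy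
    have hex : ∀ v : Bool, (∃ u, C.wires g u ≠ 0 ∧ C.nval x u = v) ↔
        ∃ u, C.wires g u ≠ 0 ∧ C.nval y u = v := by
      intro v
      constructor
      · exact exists_node C hk hgk hD g hg hoff hxy' h1 h2 h3 h4 h5
      · exact exists_node C hk hgk hD g hg (fun i hi => (hoff i hi).symm)
          (fun b hb => (hxy' b hb).symm) h3 h4 h1 h2 h5.symm
    change C.val x g = C.val y g
    rcases hC g with hf | hf | hf | hf
    · rw [C.val_eq, C.val_eq, hf]
      simp only [count_eq_iff, hex false]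
    · rw [C.val_eq, C.val_eq, hf]
      simp only [count_pos_iff, hex true]
    · rw [C.val_eq, C.val_eq, hf]
      have h6 : ∀ z : Fin n → Bool, C.count z g = 0 ↔ ¬ 0 < C.count z g := fun z => by omega
      simp only [h6, count_pos_iff, hex true]
    · rcases le_total (W D x) (W D y) with hle | hle
      · exact mod_case C hm hk hgk g hg hf hoff hxy' h1 h2 h3 h4 h5 hle
      · exact (mod_case C hm hk hgk g hg hf (fun i hi => (hoff i hi).symm)
          (fun b hb => (hxy' b hb).symm) h3 h4 h1 h2 h5.symm hle).symm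

/-- The output of an invariant circuit is a periodic function of the number of ones in `D`,
if this number is not too small and not too large. -/
theorem out_eq {m k : ℕ} (hm : m ≠ 0) (hk : 1 ≤ k) (hks : 3 * Nat.log 2 (s ^ 2) ≤ k)
    (hC : ∀ g, IsACCGate m (∑ u, C.wires g u) (C.fn g)) (hinv : C.Inv (rho D))
    {x y : Fin n → Bool} (hoff : ∀ i, i ∉ D → x i = y i)
    (h1 : 2 * k ≤ W D x) (h2 : W D x + 2 * k ≤ D.card) (h3 : 2 * k ≤ W D y)
    (h4 : W D y + 2 * k ≤ D.card) (h5 : W D x ≡ W D y [MOD modulus m k]) :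
    C.val x C.out = C.val y C.out := by
  have hgk : ∀ g, (C.gsupp (rho D) g).card ≤ k := fun g =>
    (C.gsupp_card_le (rho D) hinv g).trans hks
  refine nodeOK_gate C hm hk hgk hC C.out x y hoff ?_ h1 h2 h3 h4 h5
  intro b hb
  have : nsupp C D (Sum.inr C.out) = ∅ := C.gsupp_out (rho D) hinv
  rw [this] at hb
  exact absurd hb (notMem_empty _)

end

end Pool.Agent.L5helper42.Sym
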